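import Pool.Agent.Lib_helper48.SPC.Growth

set_option autoImplicit false

/-!
Minimal dense sets and subspaces generated by fewer vectors.
-/

namespace Pool.Agent.Lib_helper48.SPC

open Cardinal

universe u

lemma exists_min_dense (X : Type u) [TopologicalSpace X] :
    ∃ D : Set X, Dense D ∧ ∀ D' : Set X, Dense D' → #D ≤ #D' := by
  set S : Set Cardinal.{u} := {c | ∃ D : Set X, Dense D ∧ #D = c} with hS
  have hne : S.Nonempty := ⟨#(Set.univ : Set X), Set.univ, dense_univ, rfl⟩
  obtain ⟨c, ⟨D, hD, hc⟩, hmin⟩ := Cardinal.lt_wf.has_min S hne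
  refine ⟨D, hD, fun D' hD' => ?_⟩
  rw [hc]
  exact not_lt.1 (hmin _ ⟨D', hD', rfl⟩)

variable {X : Type u} [NormedAddCommGroup X] [NormedSpace ℝ X]

/-- rational combinations -/
def ratSpan (A : Set X) : Set X :=
  Set.range (fun f : A →₀ ℚ => f.sum (fun a q => (q : ℝ) • (a : X)))

lemma ratSpan_add {A : Set X} {x y : X} (hx : x ∈ ratSpan A) (hy : y ∈ ratSpan A) :
    x + y ∈ ratSpan A := by
  obtain ⟨f, rfl⟩ := hx
  obtain ⟨g, rfl⟩ := hy
  refine ⟨f + g, ?_⟩
  show (f + g).sum _ = f.sum _ + g.sum _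
  rw [Finsupp.sum_add_index']
  · intro a; simp
  · intro a p q; rw [Rat.cast_add, add_smul]

lemma ratSpan_smul {A : Set X} {x : X} (c : ℚ) (hx : x ∈ ratSpan A) :
    (c : ℝ) • x ∈ ratSpan A := by
  obtain ⟨f, rfl⟩ := hx
  refine ⟨c • f, ?_⟩
  show (c • f).sum _ = (c : ℝ) • f.sum _
  rw [Finsupp.sum_smul_index', Finsupp.smul_sum]
  · congr 1
    ext a q
    rw [smul_eq_mul, Rat.cast_mul, mul_smul]
  · intro a; simp

lemma ratSpan_single {A : Set X} (a : X) (ha : a ∈ A) : a ∈ ratSpan A := by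
  refine ⟨Finsupp.single ⟨a, ha⟩ 1, ?_⟩
  show (Finsupp.single (⟨a, ha⟩ : A) (1 : ℚ)).sum _ = a
  rw [Finsupp.sum_single_index] <;> simp

lemma ratSpan_zero (A : Set X) : (0 : X) ∈ ratSpan A := ⟨0, by simp⟩

lemma span_subset_closure (A : Set X) {x : X} (hx : x ∈ Submodule.span ℝ A) :
    x ∈ closure (ratSpan A) := by
  induction hx using Submodule.span_induction with
  | mem x h => exact subset_closure (ratSpan_single x h)
  | zero => exact subset_closure (ratSpan_zero A)
  | add x y _ _ hx hy =>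
    exact map_mem_closure₂ continuous_add hx hy (fun a ha b hb => ratSpan_add ha hb)
  | smul c x _ hx =>
    have hc : c ∈ closure (Set.range (fun q : ℚ => (q : ℝ))) := Rat.denseRange_cast c
    refine map_mem_closure₂ (f := fun (a : ℝ) (b : X) => a • b) continuous_smul hc hx ?_
    rintro a ⟨q, rfl⟩ b hb
    exact ratSpan_smul q hb

lemma mk_ratSpan_le (A : Set X) : #(ratSpan A) ≤ max #A ℵ₀ := by
  refine (mk_range_le).trans ?_
  rcases isEmpty_or_nonempty A with h | h
  · have : Subsingleton (A →₀ ℚ) := inferInstance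
    exact (Cardinal.le_one_iff_subsingleton.2 this).trans
      (one_le_aleph0.trans (le_max_right _ _))
  · rw [mk_finsupp_lift_of_infinite']
    simp

lemma not_dense_span {D : Set X} (hD : ∀ D' : Set X, Dense D' → #D ≤ #D')
    (hX : ¬ FiniteDimensional ℝ X) {A : Set X} (hA : #A < #D) :
    ∃ x : X, x ∉ (Submodule.span ℝ A).topologicalClosure := by
  by_contra hcon
  push Not at hcon
  have hdense : Dense (ratSpan A) := by
    intro x
    have h1 : x ∈ closure ((Submodule.span ℝ A : Submodule ℝ X) : Set X) := hcon x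
    have h2 : ((Submodule.span ℝ A : Submodule ℝ X) : Set X) ⊆ closure (ratSpan A) :=
      fun y hy => span_subset_closure A hy
    exact closure_minimal h2 isClosed_closure h1
  have h3 : #D ≤ max #A ℵ₀ := (hD _ hdense).trans (mk_ratSpan_le A)
  have h4 : #D ≤ ℵ₀ := by
    rcases le_max_iff.1 h3 with h | h
    · exact absurd hA (not_lt.2 h)
    · exact h
  have hfin : A.Finite := by
    rw [← Cardinal.lt_aleph0_iff_set_finite]
    exact hA.trans_le h4
  have hfd : FiniteDimensional ℝ (Submodule.span ℝ A) := FiniteDimensional.span_of_finite ℝ hfin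
  have hcl : IsClosed ((Submodule.span ℝ A : Submodule ℝ X) : Set X) :=
    Submodule.closed_of_finiteDimensional _
  have htop : Submodule.span ℝ A = ⊤ := by
    rw [eq_top_iff]
    intro x _
    have h1 : x ∈ closure ((Submodule.span ℝ A : Submodule ℝ X) : Set X) := hcon x
    rwa [hcl.closure_eq] at h1
  apply hX
  rw [htop] at hfd
  exact Module.finite_def.2 (Module.Finite.iff_fg.1 hfd)

lemma big_span {Y : Type*} [NormedAddCommGroup Y] [NormedSpace ℝ Y] {T : X →L[ℝ] Y} {c : ℝ}
    (hc : 0 < c) (hT : ∀ x, c * ‖x‖ ≤ ‖T x‖)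
    {D : Set X} (hD : ∀ D' : Set X, Dense D' → #D ≤ #D')
    (hX : ¬ FiniteDimensional ℝ X) {A : Set X} (hA : #A < #D) :
    Big T (Submodule.span ℝ A) (c / 2) := by
  have h1 := not_dense_span hD hX hA
  obtain ⟨x, -, hx, hy⟩ := riesz_lemma_of_lt_one (𝕜 := ℝ)
    (Submodule.isClosed_topologicalClosure (Submodule.span ℝ A)) h1
    (r := 1 / 2) (by norm_num)
  refine ⟨x, hx.le, fun y hys => ?_⟩
  have h2 := hy (-y) (Submodule.neg_mem _ (Submodule.le_topologicalClosure _ hys))
  rw [sub_neg_eq_add] at h2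
  have h3 := hT (x + y)
  nlinarith

lemma infinite_of_min_dense {D : Set X} (hDd : Dense D) (hX : ¬ FiniteDimensional ℝ X) :
    ℵ₀ ≤ #D := by
  by_contra hcon
  push Not at hcon
  have hfin : D.Finite := Cardinal.lt_aleph0_iff_set_finite.1 hcon
  have h1 : D = Set.univ := by
    rw [← hfin.isClosed.closure_eq]
    exact hDd.closure_eq
  apply hX
  have h2 : Finite X := by
    rw [h1] at hfin
    exact Set.finite_univ_iff.1 hfin
  exact Module.Finite.of_finite

end Pool.Agent.Lib_helper48.SPC
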