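import Pool.Agent.Lib_helper95.Gamma.FinDim

set_option autoImplicit false

/-!
Extremal vectors for a uniformly convex norm modulo small subspaces: the growth lemma.
-/

namespace Pool.Agent.Lib_helper48.SPC

universe u

variable {X Y : Type*} [NormedAddCommGroup X] [NormedSpace ℝ X]
  [NormedAddCommGroup Y] [NormedSpace ℝ Y]

/-- the unit ball has a vector at distance at least `s` from `E`, distances measured in `Y` -/
def Big (T : X →L[ℝ] Y) (E : Submodule ℝ X) (s : ℝ) : Prop :=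
  ∃ w : X, ‖w‖ ≤ 1 ∧ ∀ y ∈ E, s ≤ ‖T (w + y)‖

lemma Big.mono {T : X →L[ℝ] Y} {E : Submodule ℝ X} {s t : ℝ} (h : Big T E s) (hts : t ≤ s) :
    Big T E t := by
  obtain ⟨w, hw, h⟩ := h
  exact ⟨w, hw, fun y hy => hts.trans (h y hy)⟩

/-- growth lemma -/
lemma growth [UniformConvexSpace Y] {d θ R : ℝ} (_hd0 : 0 < d)
    (hd : ∀ ⦃x : Y⦄, ‖x‖ ≤ 1 → ∀ ⦃y⦄, ‖y‖ ≤ 1 → 1 / 4 ≤ ‖x - y‖ → ‖x + y‖ ≤ 2 - d)
    (hθ0 : 0 < θ) (hθ1 : θ ≤ 1 / 16) (hθd : 16 * θ ≤ d) (hR : 0 < R)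
    {T : X →L[ℝ] Y} {E₀ E F : Submodule ℝ X} (hE₀ : ¬ Big T E₀ ((1 + θ) * R)) (h0E : E₀ ≤ E)
    (hEF : E ≤ F) {w u : X} (hw1 : ‖w‖ ≤ 1) (hw : ∀ y ∈ F, (1 - θ) * R ≤ ‖T (w + y)‖)
    (huF : u ∈ F) (hu : ∀ y ∈ E, (1 - θ) * R / 2 ≤ ‖T (u + y)‖) : 1 + θ ≤ ‖w + u‖ := by
  by_contra hcon
  push Not at hcon
  have hθ' : 0 < 1 + θ := by linarith
  unfold Big at hE₀
  push Not at hE₀
  -- a good translate of `w + u`
  obtain ⟨y₁, hy₁, h1⟩ := hE₀ ((1 + θ)⁻¹ • (w + u)) (by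
    rw [norm_smul, Real.norm_eq_abs, abs_of_pos (inv_pos.2 hθ'), inv_mul_le_iff₀ hθ']
    linarith)
  obtain ⟨y₂, hy₂, h2⟩ := hE₀ w hw1
  set r : ℝ := (1 + θ) * ((1 + θ) * R) with hr
  have hr0 : 0 < r := by positivity
  set a : Y := T (w + u + (1 + θ) • y₁) with ha
  set b : Y := T (w + y₂) with hb
  have hna : ‖a‖ ≤ r := by
    have e : w + u + (1 + θ) • y₁ = (1 + θ) • ((1 + θ)⁻¹ • (w + u) + y₁) := by
      rw [smul_add, smul_smul, mul_inv_cancel₀ hθ'.ne', one_smul]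
    rw [ha, e, map_smul, norm_smul, Real.norm_eq_abs, abs_of_pos hθ', hr]
    exact mul_le_mul_of_nonneg_left h1.le hθ'.le
  have hnb : ‖b‖ ≤ r := by
    refine h2.le.trans ?_
    rw [hr]
    nlinarith [mul_pos hθ' hR]
  have hab : (1 - θ) * R / 2 ≤ ‖a - b‖ := by
    rw [ha, hb, ← map_sub]
    have e : w + u + (1 + θ) • y₁ - (w + y₂) = u + ((1 + θ) • y₁ - y₂) := by abel
    rw [e]
    exact hu _ (E.sub_mem (E.smul_mem _ (h0E hy₁)) (h0E hy₂))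
  have hmid : 2 * ((1 - θ) * R) ≤ ‖a + b‖ := by
    rw [ha, hb, ← map_add]
    have e : w + u + (1 + θ) • y₁ + (w + y₂)
        = (2 : ℝ) • (w + (1 / 2 : ℝ) • (u + (1 + θ) • y₁ + y₂)) := by
      rw [smul_add, smul_smul, two_smul]
      norm_num
      abel
    rw [e, map_smul, norm_smul, Real.norm_eq_abs, abs_of_pos (by norm_num : (0 : ℝ) < 2)]
    apply mul_le_mul_of_nonneg_left _ (by norm_num)
    apply hw
    apply F.smul_mem
    exact F.add_mem (F.add_mem huF (F.smul_mem _ (hEF (h0E hy₁)))) (hEF (h0E hy₂))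
  -- uniform convexity
  have hsa : ‖r⁻¹ • a‖ ≤ 1 := by
    rw [norm_smul, Real.norm_eq_abs, abs_of_pos (inv_pos.2 hr0), inv_mul_le_iff₀ hr0]
    linarith
  have hsb : ‖r⁻¹ • b‖ ≤ 1 := by
    rw [norm_smul, Real.norm_eq_abs, abs_of_pos (inv_pos.2 hr0), inv_mul_le_iff₀ hr0]
    linarith
  have hsab : 1 / 4 ≤ ‖r⁻¹ • a - r⁻¹ • b‖ := by
    rw [← smul_sub, norm_smul, Real.norm_eq_abs, abs_of_pos (inv_pos.2 hr0), le_inv_mul_iff₀ hr0]
    refine le_trans ?_ hab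
    rw [hr]
    nlinarith [mul_pos hθ0 hR, mul_pos (mul_pos hθ0 hθ0) hR]
  have h3 := hd hsa hsb hsab
  rw [← smul_add, norm_smul, Real.norm_eq_abs, abs_of_pos (inv_pos.2 hr0),
    inv_mul_le_iff₀ hr0] at h3
  have h4 : 2 * ((1 - θ) * R) ≤ r * (2 - d) := hmid.trans h3
  rw [hr] at h4
  have h5 : 2 * (1 - θ) ≤ (1 + θ) * (1 + θ) * (2 - d) := by
    have : R * (2 * (1 - θ)) ≤ R * ((1 + θ) * (1 + θ) * (2 - d)) := by linarith
    exact le_of_mul_le_mul_left this hR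
  have h6 : (1 + θ) * (1 + θ) * (2 - 16 * θ) < 2 * (1 - θ) := by nlinarith [mul_pos hθ0 hθ0]
  have h7 : (1 + θ) * (1 + θ) * (2 - d) ≤ (1 + θ) * (1 + θ) * (2 - 16 * θ) := by
    apply mul_le_mul_of_nonneg_left _ (by positivity)
    linarith
  linarith

/-- the extremal value -/
lemma exists_extremal {T : X →L[ℝ] Y} {c : ℝ} (hc : 0 < c) {Small : Submodule ℝ X → Prop}
    (h0 : Small ⊥) (hS : ∀ E, Small E → Big T E c) {θ : ℝ} (hθ : 0 < θ) :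
    ∃ R : ℝ, 0 < R ∧ (∀ E, Small E → Big T E ((1 - θ) * R)) ∧
      ∃ E, Small E ∧ ¬ Big T E ((1 + θ) * R) := by
  set A : Set ℝ := {s | ∀ E, Small E → Big T E s} with hA
  have hne : A.Nonempty := ⟨c, hS⟩
  have hbdd : BddAbove A := by
    refine ⟨‖T‖, fun s hs => ?_⟩
    obtain ⟨w, hw, h⟩ := hs ⊥ h0
    have h1 := h 0 (Submodule.zero_mem _)
    rw [add_zero] at h1
    calc s ≤ ‖T w‖ := h1
      _ ≤ ‖T‖ * ‖w‖ := T.le_opNorm w
      _ ≤ ‖T‖ * 1 := mul_le_mul_of_nonneg_left hw (norm_nonneg _)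
      _ = ‖T‖ := mul_one _
  have hR : 0 < sSup A := hc.trans_le (le_csSup hbdd hS)
  refine ⟨sSup A, hR, ?_, ?_⟩
  · intro E hE
    have hlt : (1 - θ) * sSup A < sSup A := by nlinarith
    obtain ⟨s, hs, hls⟩ := exists_lt_of_lt_csSup hne hlt
    exact (hs E hE).mono hls.le
  · by_contra hcon
    push Not at hcon
    have h1 : (1 + θ) * sSup A ∈ A := hcon
    have h2 := le_csSup hbdd h1
    nlinarith

end Pool.Agent.Lib_helper48.SPC
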