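import Pool.Agent.Lib_helper48.SPC.Step

set_option autoImplicit false

/-!
Super-reflexive normed spaces of any density have `gamma < 2`.
-/

namespace Pool.Agent.Lib_helper48.SPC

open Cardinal
open Pool.Agent.Lib_helper95.Gamma

universe u

variable {X : Type u} [NormedAddCommGroup X] [NormedSpace ℝ X]

theorem exists_net_of_uc {Y : Type*} [NormedAddCommGroup Y] [NormedSpace ℝ Y]
    [UniformConvexSpace Y] (T : X →L[ℝ] Y) {c : ℝ} (hc : 0 < c) (hT : ∀ x, c * ‖x‖ ≤ ‖T x‖)
    (hX : ¬ FiniteDimensional ℝ X) :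
    ∃ r < (2 : ℝ), 0 < r ∧ ∃ P : Set X, Separated 2 P ∧ RDense r P := by
  classical
  obtain ⟨d, hd0, hd⟩ := exists_forall_closed_ball_dist_add_le_two_sub Y
    (by norm_num : (0 : ℝ) < 1 / 4)
  -- constants
  set θ : ℝ := min (1 / 16) (d / 16) with hθ
  have hθ0 : 0 < θ := lt_min (by norm_num) (by positivity)
  have hθ1 : θ ≤ 1 / 16 := min_le_left _ _
  have hθd : 16 * θ ≤ d := by
    have := min_le_right (1 / 16) (d / 16)
    linarith
  set η : ℝ := θ / 3 with hη
  have hη0 : 0 < η := by positivity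
  have hη1 : η < 1 := by rw [hη]; linarith
  set ρ : ℝ := 2 - 2 * η with hρ
  have hρ0 : 0 < ρ := by rw [hρ]; linarith
  have hρθ : 4 + 2 * η ≤ 2 * ρ * (1 + θ) := by
    rw [hρ, hη]
    nlinarith
  -- dense set and small subspaces
  obtain ⟨D, hDd, hDmin⟩ := exists_min_dense X
  have hDinf : ℵ₀ ≤ #D := infinite_of_min_dense hDd hX
  set Small : Submodule ℝ X → Prop := fun E => ∃ A : Set X, #A < #D ∧ E = Submodule.span ℝ A
    with hSmall
  have hbot : Small ⊥ := ⟨∅, by
    rw [mk_eq_zero]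
    exact lt_of_lt_of_le aleph0_pos hDinf, by simp⟩
  have hBig : ∀ E, Small E → Big T E (c / 2) := by
    rintro E ⟨A, hA, rfl⟩
    exact big_span hc hT hDmin hX hA
  obtain ⟨R, hR, hlow, E₀, ⟨A₀, hA₀, hE₀A⟩, hE₀⟩ :=
    exists_extremal (half_pos hc) hbot hBig hθ0
  -- the index set
  set ι : Type u := (#D).ord.ToType with hι
  have hcard : #ι = #D := mk_ord_toType _
  have hIio : ∀ i : ι, #(Set.Iio i) < #D := fun i => by
    have h1 : ord #ι = Ordinal.type (α := ι) (· < ·) := by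
      rw [hcard]
      exact (Ordinal.type_toType _).symm
    have := Cardinal.mk_Iio_lt i h1
    rwa [hcard] at this
  obtain ⟨e⟩ : Nonempty (ι ≃ D) := Cardinal.eq.1 hcard
  set x : ι → X := fun i => (e i : X) with hx
  have hxd : ∀ y : X, ∀ ε > 0, ∃ i, ‖y - x i‖ < ε := by
    intro y ε hε
    obtain ⟨z, hz, hzD⟩ := Metric.dense_iff.1 hDd y ε hε
    refine ⟨e.symm ⟨z, hzD⟩, ?_⟩
    rw [hx]
    simp only [Equiv.apply_symm_apply]
    rw [← dist_eq_norm, dist_comm]
    exact hz
  -- the generating sets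
  set G : ι → (ι → X) → Set X := fun i v => A₀ ∪ (x '' Set.Iic i ∪ v '' Set.Iio i) with hG
  have hGcard : ∀ i v, #(G i v) < #D := by
    intro i v
    have h1 : #(v '' Set.Iio i) < #D := mk_image_le.trans_lt (hIio i)
    have h2 : #(x '' Set.Iic i) < #D := by
      refine mk_image_le.trans_lt ?_
      have h3 : Set.Iic i = insert i (Set.Iio i) := by
        ext j
        simp [le_iff_eq_or_lt]
      rw [h3]
      exact (mk_insert_le).trans_lt
        (Cardinal.add_lt_of_lt hDinf (hIio i) (lt_of_lt_of_le one_lt_aleph0 hDinf))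
    refine (mk_union_le _ _).trans_lt (Cardinal.add_lt_of_lt hDinf hA₀ ?_)
    exact (mk_union_le _ _).trans_lt (Cardinal.add_lt_of_lt hDinf h2 h1)
  -- generic vectors
  obtain ⟨v, hv⟩ := exists_rec (ι := ι) (α := X)
    (fun i v w => ‖w‖ ≤ 1 ∧ ∀ y ∈ Submodule.span ℝ (G i v), (1 - θ) * R ≤ ‖T (w + y)‖)
    (fun i v => hlow _ ⟨G i v, hGcard i v, rfl⟩)
    (fun i f g hfg w hw => by
      have : G i f = G i g := by
        rw [hG]
        simp only
        congr 2
        exact Set.image_congr (fun j hj => hfg j hj)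
      rwa [this] at hw)
  set E : ι → Submodule ℝ X := fun i => Submodule.span ℝ (G i v) with hE
  have hE₀E : ∀ i, E₀ ≤ E i := fun i => by
    rw [hE₀A]
    exact Submodule.span_mono Set.subset_union_left
  have hEmono : ∀ i j, i ≤ j → E i ≤ E j := fun i j hij =>
    Submodule.span_mono (Set.union_subset_union_right _ (Set.union_subset_union
      (Set.image_mono (Set.Iic_subset_Iic.2 hij)) (Set.image_mono (Set.Iio_subset_Iio hij))))
  have hxE : ∀ i, x i ∈ E i := fun i =>
    Submodule.subset_span (Or.inr (Or.inl ⟨i, Set.mem_Iic.2 le_rfl, rfl⟩))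
  have hvE : ∀ i j, i < j → v i ∈ E j := fun i j hij =>
    Submodule.subset_span (Or.inr (Or.inr ⟨i, hij, rfl⟩))
  have hgrow : ∀ j i, j < i → ∀ y ∈ E j, ∀ σ : ℝ, (σ = 1 ∨ σ = -1) →
      1 + θ ≤ ‖v i + ((σ / 2) • v j + y)‖ := by
    intro j i hji y hy σ hσ
    have hσ2 : σ * σ = 1 := by rcases hσ with rfl | rfl <;> norm_num
    refine growth hd0 hd hθ0 hθ1 hθd hR (T := T) hE₀ (hE₀E j) (hEmono j i hji.le) (hv i).1
      (hv i).2 ?_ ?_
    · exact Submodule.add_mem _ (Submodule.smul_mem _ _ (hvE j i hji)) (hEmono j i hji.le hy)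
    · intro y' hy'
      have h1 := (hv j).2 ((2 * σ) • (y + y')) (Submodule.smul_mem _ _ (Submodule.add_mem _ hy hy'))
      have e1 : (σ / 2) • v j + y + y' = (σ / 2) • (v j + (2 * σ) • (y + y')) := by
        rw [smul_add, smul_smul]
        have : σ / 2 * (2 * σ) = 1 := by linear_combination hσ2
        rw [this, one_smul]
        abel
      rw [e1, map_smul, norm_smul]
      have e2 : ‖σ / 2‖ = 1 / 2 := by
        rw [Real.norm_eq_abs]
        rcases hσ with rfl | rfl <;> norm_num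
      rw [e2]
      linarith
  -- the points
  set prev : ι → (ι → Option X) → Set X := fun i q => {p | ∃ j < i, q j = some p} with hprev
  obtain ⟨q, hq⟩ := exists_rec (ι := ι) (α := Option X)
    (fun i q y => (∃ p, y = some p ∧ Good η ρ (x i) (v i) (prev i q) p) ∨
      (y = none ∧ ¬ ∃ p, Good η ρ (x i) (v i) (prev i q) p))
    (fun i q => by
      by_cases h : ∃ p, Good η ρ (x i) (v i) (prev i q) p
      · obtain ⟨p, hp⟩ := h
        exact ⟨some p, Or.inl ⟨p, rfl, hp⟩⟩
      · exact ⟨none, Or.inr ⟨rfl, h⟩⟩)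
    (fun i f g hfg y hy => by
      have : prev i f = prev i g := by
        ext p
        constructor
        · rintro ⟨j, hj, h⟩; exact ⟨j, hj, by rw [← hfg j hj]; exact h⟩
        · rintro ⟨j, hj, h⟩; exact ⟨j, hj, by rw [hfg j hj]; exact h⟩
      rwa [this] at hy)
  have hgood : ∀ i p, q i = some p → Good η ρ (x i) (v i) (prev i q) p := by
    intro i p hi
    rcases hq i with ⟨p', h1, h2⟩ | ⟨h1, -⟩
    · rw [hi] at h1
      rw [Option.some_injective _ h1]
      exact h2
    · rw [hi] at h1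
      exact absurd h1 (by simp)
  -- old points are in the subspaces
  have hmem : ∀ i p, q i = some p → (∃ σ : ℝ, (σ = 1 ∨ σ = -1) ∧ p - (σ * ρ) • v i ∈ E i) ∧
      ∀ j, i < j → p ∈ E j := by
    intro i
    induction i using WellFoundedLT.induction with
    | ind i ih =>
      intro p hp
      obtain ⟨-, -, σ, hσ, hspan⟩ := hgood i p hp
      have h1 : p - (σ * ρ) • v i ∈ E i := by
        refine Submodule.span_le.2 ?_ hspan
        rintro y (rfl | ⟨j, hj, hjy⟩)
        · exact hxE i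
        · exact (ih j hj y hjy).2 i hj
      refine ⟨⟨σ, hσ, h1⟩, fun j hij => ?_⟩
      have h2 : p = (p - (σ * ρ) • v i) + (σ * ρ) • v i := by abel
      rw [h2]
      exact Submodule.add_mem _ (hEmono i j hij.le h1) (Submodule.smul_mem _ _ (hvE i j hij))
  -- the key inequality
  have hpair : ∀ i, ∀ j < i, ∀ k < j, ∀ p p', q j = some p → q k = some p' →
      ∀ τ : ℝ, (τ = 1 ∨ τ = -1) → 4 + 2 * η ≤ ‖(p - p') + (τ * (2 * ρ)) • v i‖ := by
    intro i j hji k hkj p p' hp hp' τ hτ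
    obtain ⟨⟨σ, hσ, h1⟩, -⟩ := hmem j p hp
    have h2 : p' ∈ E j := (hmem k p' hp').2 j hkj
    have hτ2 : τ * τ = 1 := by rcases hτ with rfl | rfl <;> norm_num
    set y : X := (τ / (2 * ρ)) • (p - (σ * ρ) • v j - p') with hy
    have hyE : y ∈ E j := Submodule.smul_mem _ _ (Submodule.sub_mem _ h1 h2)
    have hτσ : τ * σ = 1 ∨ τ * σ = -1 := by
      rcases hτ with rfl | rfl <;> rcases hσ with rfl | rfl <;> norm_num
    have h3 := hgrow j i hji y hyE (τ * σ) hτσ
    have e1 : (p - p') + (τ * (2 * ρ)) • v i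
        = (τ * (2 * ρ)) • (v i + ((τ * σ / 2) • v j + y)) := by
      rw [hy]
      simp only [smul_add, smul_sub, smul_smul]
      have e2 : τ * (2 * ρ) * (τ * σ / 2) = σ * ρ := by linear_combination (σ * ρ) * hτ2
      have e3 : τ * (2 * ρ) * (τ / (2 * ρ)) = 1 := by
        field_simp
        linear_combination hτ2
      have e4 : τ * (2 * ρ) * (τ / (2 * ρ) * (σ * ρ)) = σ * ρ := by
        rw [← mul_assoc, e3, one_mul]
      rw [e2, e3, e4, one_smul, one_smul]
      abel
    rw [e1, norm_smul]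
    have e5 : ‖τ * (2 * ρ)‖ = 2 * ρ := by
      rw [Real.norm_eq_abs, abs_mul, abs_of_pos (by positivity : (0 : ℝ) < 2 * ρ)]
      rcases hτ with rfl | rfl <;> norm_num
    rw [e5]
    refine hρθ.trans (mul_le_mul_of_nonneg_left h3 (by positivity))
  have hsep : ∀ i, ∀ p ∈ prev i q, ∀ p' ∈ prev i q, p ≠ p' →
      4 + 2 * η ≤ ‖(p - p') + (2 * ρ) • v i‖ := by
    rintro i p ⟨j, hji, hj⟩ p' ⟨k, hki, hk⟩ hne
    rcases lt_trichotomy j k with h | h | h
    · have h1 := hpair i k hki j h p' p hk hj (-1) (Or.inr rfl)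
      have e1 : (p - p') + (2 * ρ) • v i = -((p' - p) + ((-1 : ℝ) * (2 * ρ)) • v i) := by
        rw [neg_one_mul, neg_smul]; abel
      rw [e1, norm_neg]
      exact h1
    · subst h
      rw [hj] at hk
      exact absurd (Option.some_injective _ hk) hne
    · have h1 := hpair i j hji k h p p' hj hk 1 (Or.inl rfl)
      rwa [one_mul] at h1
  -- coverage
  have hcov : ∀ i, ∃ p, (∃ j, q j = some p) ∧ ‖x i - p‖ ≤ 2 - η := by
    intro i
    by_cases h : ∃ p ∈ prev i q, ‖x i - p‖ ≤ 2 - η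
    · obtain ⟨p, ⟨j, -, hj⟩, hp⟩ := h
      exact ⟨p, ⟨j, hj⟩, hp⟩
    · push Not at h
      obtain ⟨p, hp⟩ := step hη0 hη1 hρ (hv i).1 (hsep i) h
      rcases hq i with ⟨p', h1, h2⟩ | ⟨-, h2⟩
      · refine ⟨p', ⟨i, h1⟩, ?_⟩
        rw [norm_sub_rev]
        exact h2.1
      · exact absurd ⟨p, hp⟩ h2
  refine ⟨2 - η / 2, by linarith, by linarith, {p | ∃ j, q j = some p}, ?_, ?_⟩
  · rintro p ⟨i, hi⟩ p' ⟨j, hj⟩ hne
    rcases lt_trichotomy i j with h | h | h
    · have h1 := (hgood j p' hj).2.1 p ⟨i, h, hi⟩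
      rwa [norm_sub_rev] at h1
    · subst h
      rw [hi] at hj
      exact absurd (Option.some_injective _ hj) hne
    · exact (hgood i p hi).2.1 p' ⟨j, h, hj⟩
  · intro y
    obtain ⟨i, hi⟩ := hxd y (η / 2) (by positivity)
    obtain ⟨p, hp, hxp⟩ := hcov i
    refine ⟨p, hp, ?_⟩
    have e1 : y - p = (y - x i) + (x i - p) := by abel
    rw [e1]
    refine (norm_add_le _ _).trans ?_
    linarith

theorem gamma_lt_two_of_net {X : Type u} [NormedAddCommGroup X]
    (h : ∃ r < (2 : ℝ), 0 < r ∧ ∃ P : Set X, Separated 2 P ∧ RDense r P) : gamma X < 2 := by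
  obtain ⟨r, hr2, hr0, hP⟩ := h
  have hle : gamma X ≤ r := csInf_le ⟨0, fun t ht => ht.1.le⟩ ⟨hr0, hP⟩
  exact hle.trans_lt hr2

/-- Every super-reflexive normed space has `gamma < 2`. -/
theorem gamma_lt_two (X : Type u) [NormedAddCommGroup X] [NormedSpace ℝ X]
    (h : SuperReflexive X) : gamma X < 2 := by
  apply gamma_lt_two_of_net
  by_cases hfin : FiniteDimensional ℝ X
  · exact exists_net_of_finite X
  · obtain ⟨Y, i1, i2, hY, hUC, ⟨e⟩⟩ := h
    let T : X →L[ℝ] Y := (e : UniformSpace.Completion X →L[ℝ] Y).comp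
      (UniformSpace.Completion.toComplL : X →L[ℝ] UniformSpace.Completion X)
    set c : ℝ := ‖(e.symm : Y →L[ℝ] UniformSpace.Completion X)‖ + 1 with hc
    have hc0 : 0 < c := by positivity
    refine exists_net_of_uc T (inv_pos.2 hc0) (fun x => ?_) hfin
    have h1 : ‖(x : UniformSpace.Completion X)‖ = ‖x‖ := UniformSpace.Completion.norm_coe x
    have h2 : e.symm (T x) = (x : UniformSpace.Completion X) := e.symm_apply_apply _
    have h3 := (e.symm : Y →L[ℝ] UniformSpace.Completion X).le_opNorm (T x)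
    have h4 : ‖x‖ ≤ ‖(e.symm : Y →L[ℝ] UniformSpace.Completion X)‖ * ‖T x‖ := by
      rw [← h1, ← h2]
      exact h3
    rw [inv_mul_le_iff₀ hc0]
    have := norm_nonneg (T x)
    nlinarith

end Pool.Agent.Lib_helper48.SPC
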