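import Pool.Agent.Lib_helper48.SPC.Card

set_option autoImplicit false

/-!
Transfinite recursion and the greedy step.
-/

namespace Pool.Agent.Lib_helper48.SPC

universe u

lemma exists_rec {ι α : Type*} [LinearOrder ι] [WellFoundedLT ι] [Nonempty α]
    (Φ : ι → (ι → α) → α → Prop) (hex : ∀ i f, ∃ y, Φ i f y)
    (hdep : ∀ i f g, (∀ j < i, f j = g j) → ∀ y, Φ i f y → Φ i g y) :
    ∃ f : ι → α, ∀ i, Φ i f (f i) := by
  classical
  choose F hF using hex
  let f : ι → α := (wellFounded_lt (α := ι)).fix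
    (fun i rec => F i (fun j => if h : j < i then rec j h else Classical.arbitrary α))
  have hf : ∀ i, f i = F i (fun j => if j < i then f j else Classical.arbitrary α) := by
    intro i
    show (wellFounded_lt (α := ι)).fix _ i = _
    rw [WellFounded.fix_eq]
    rfl
  refine ⟨f, fun i => ?_⟩
  rw [hf i]
  apply hdep i (fun j => if j < i then f j else Classical.arbitrary α) f
  · intro j hj
    simp [hj]
  · exact hF i _

variable {X : Type*} [NormedAddCommGroup X] [NormedSpace ℝ X]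

/-- the properties of a new point -/
def Good (η ρ : ℝ) (x v : X) (P : Set X) (p : X) : Prop :=
  ‖p - x‖ ≤ 2 - η ∧ (∀ q ∈ P, 2 ≤ ‖p - q‖) ∧
    ∃ σ : ℝ, (σ = 1 ∨ σ = -1) ∧ p - (σ * ρ) • v ∈ Submodule.span ℝ (insert x P)

lemma norm_sign {σ : ℝ} (hσ : σ = 1 ∨ σ = -1) {ρ : ℝ} (hρ : 0 ≤ ρ) (v : X) :
    ‖(σ * ρ) • v‖ = ρ * ‖v‖ := by
  rw [norm_smul, Real.norm_eq_abs, abs_mul, abs_of_nonneg hρ]
  rcases hσ with rfl | rfl <;> simp

/-- the greedy step -/
lemma step {η ρ : ℝ} (hη0 : 0 < η) (hη1 : η < 1) (hρ : ρ = 2 - 2 * η) {x v : X} (hv : ‖v‖ ≤ 1)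
    {P : Set X} (hP : ∀ p ∈ P, ∀ q ∈ P, p ≠ q → 4 + 2 * η ≤ ‖(p - q) + (2 * ρ) • v‖)
    (hx : ∀ p ∈ P, 2 - η < ‖x - p‖) : ∃ p, Good η ρ x v P p := by
  have hρ0 : 0 ≤ ρ := by rw [hρ]; linarith
  have hρv : ρ * ‖v‖ ≤ ρ := by nlinarith [norm_nonneg v]
  -- the two bad sets
  set B : ℝ → Set X := fun σ => {p | p ∈ P ∧ ‖x - p + (σ * ρ) • v‖ < 2 + η} with hB
  have hkey : ∀ p ∈ B 1, ∀ q ∈ B (-1), p = q := by
    intro p hp q hq
    by_contra hne
    have h1 := hP q hq.1 p hp.1 (Ne.symm hne)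
    have e : (q - p) + (2 * ρ) • v = (x - p + ((1 : ℝ) * ρ) • v) - (x - q + ((-1 : ℝ) * ρ) • v) := by
      rw [two_mul, add_smul, one_mul, neg_one_mul, neg_smul]
      abel
    rw [e] at h1
    have h2 := norm_sub_le (x - p + ((1 : ℝ) * ρ) • v) (x - q + ((-1 : ℝ) * ρ) • v)
    have h3 := hp.2
    have h4 := hq.2
    linarith
  by_cases hemp : ∃ σ : ℝ, (σ = 1 ∨ σ = -1) ∧ B σ = ∅
  · obtain ⟨σ, hσ, hBσ⟩ := hemp
    refine ⟨x + (σ * ρ) • v, ?_, ?_, σ, hσ, ?_⟩
    · rw [add_sub_cancel_left, norm_sign hσ hρ0]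
      linarith
    · intro q hq
      by_contra hcon
      push Not at hcon
      have : q ∈ B σ := ⟨hq, by
        have e : x - q + (σ * ρ) • v = x + (σ * ρ) • v - q := by abel
        rw [e]; linarith⟩
      rw [hBσ] at this
      exact this
    · rw [add_sub_cancel_right]
      exact Submodule.subset_span (Set.mem_insert _ _)
  · push Not at hemp
    obtain ⟨p₀, hp₀⟩ := hemp 1 (Or.inl rfl)
    have hBp : B 1 ⊆ {p₀} := by
      obtain ⟨q, hq⟩ := hemp (-1) (Or.inr rfl)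
      intro p hp
      rw [Set.mem_singleton_iff, hkey p hp q hq, hkey p₀ hp₀ q hq]
    have hBm : B (-1) ⊆ {p₀} := by
      intro q hq
      rw [Set.mem_singleton_iff]
      exact (hkey p₀ hp₀ q hq).symm
    have hBs : ∀ σ : ℝ, (σ = 1 ∨ σ = -1) → B σ ⊆ {p₀} := by
      rintro σ (rfl | rfl)
      · exact hBp
      · exact hBm
    have hz := hx p₀ hp₀.1
    have hz0 : 0 < ‖x - p₀‖ := by linarith
    -- the correction
    set lam : ℝ := max 0 (2 / ‖x - p₀‖ - 1) with hlam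
    have hlam0 : 0 ≤ lam := le_max_left _ _
    have hlz : lam * ‖x - p₀‖ ≤ η := by
      rcases max_cases 0 (2 / ‖x - p₀‖ - 1) with ⟨h, -⟩ | ⟨h, -⟩
      · rw [hlam, h]; linarith
      · rw [hlam, h, sub_mul, div_mul_cancel₀ _ hz0.ne']; linarith
    have hl2 : 2 ≤ (1 + lam) * ‖x - p₀‖ := by
      have h1 : 2 / ‖x - p₀‖ - 1 ≤ lam := le_max_right _ _
      have h2 : 2 / ‖x - p₀‖ ≤ 1 + lam := by linarith
      rwa [div_le_iff₀ hz0] at h2
    set z : X := (1 + lam) • (x - p₀) with hzdef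
    have hnz : 2 ≤ ‖z‖ := by
      rw [hzdef, norm_smul, Real.norm_eq_abs, abs_of_nonneg (by linarith)]
      exact hl2
    have hsign : ∃ σ : ℝ, (σ = 1 ∨ σ = -1) ∧ ‖z‖ ≤ ‖z + (σ * ρ) • v‖ := by
      by_contra hcon
      push Not at hcon
      have h1 := hcon 1 (Or.inl rfl)
      have h2 := hcon (-1) (Or.inr rfl)
      have h3 : ‖(2 : ℝ) • z‖ ≤ ‖z + ((1 : ℝ) * ρ) • v‖ + ‖z + ((-1 : ℝ) * ρ) • v‖ := by
        have e : (2 : ℝ) • z = (z + ((1 : ℝ) * ρ) • v) + (z + ((-1 : ℝ) * ρ) • v) := by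
          rw [two_smul, one_mul, neg_one_mul, neg_smul]
          abel
        rw [e]
        exact norm_add_le _ _
      rw [norm_smul, Real.norm_eq_abs, abs_of_pos (by norm_num : (0 : ℝ) < 2)] at h3
      linarith
    obtain ⟨σ, hσ, hσz⟩ := hsign
    refine ⟨x + lam • (x - p₀) + (σ * ρ) • v, ?_, ?_, σ, hσ, ?_⟩
    · have e : x + lam • (x - p₀) + (σ * ρ) • v - x = lam • (x - p₀) + (σ * ρ) • v := by abel
      rw [e]
      refine (norm_add_le _ _).trans ?_
      rw [norm_sign hσ hρ0, norm_smul, Real.norm_eq_abs, abs_of_nonneg hlam0]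
      linarith
    · intro q hq
      by_cases hq0 : q = p₀
      · subst hq0
        have e : x + lam • (x - q) + (σ * ρ) • v - q = z + (σ * ρ) • v := by
          rw [hzdef, add_smul, one_smul]; abel
        rw [e]
        exact hnz.trans hσz
      · have h1 : q ∉ B σ := fun h => hq0 (hBs σ hσ h)
        have h2 : 2 + η ≤ ‖x - q + (σ * ρ) • v‖ := by
          by_contra hcon
          push Not at hcon
          exact h1 ⟨hq, hcon⟩
        have e : x - q + (σ * ρ) • v = (x + lam • (x - p₀) + (σ * ρ) • v - q) - lam • (x - p₀) := by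
          abel
        rw [e] at h2
        have h3 := norm_sub_le (x + lam • (x - p₀) + (σ * ρ) • v - q) (lam • (x - p₀))
        rw [norm_smul, Real.norm_eq_abs, abs_of_nonneg hlam0] at h3
        linarith
    · rw [add_sub_cancel_right]
      have hxs : x ∈ Submodule.span ℝ (insert x P) := Submodule.subset_span (Set.mem_insert _ _)
      have hps : p₀ ∈ Submodule.span ℝ (insert x P) :=
        Submodule.subset_span (Set.mem_insert_of_mem _ hp₀.1)
      exact Submodule.add_mem _ hxs (Submodule.smul_mem _ _ (Submodule.sub_mem _ hxs hps))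

end Pool.Agent.Lib_helper48.SPC
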